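import Pool.Agent.Lib.H65I.Main

/-! # MP_918571_co: the product formula for admissible coloured partitions, as an identity of
formal power series with integer coefficients -/

namespace Pool.Agent.Results.MP_918571_co.FormalProduct

open PowerSeries Pool.Agent.Lib.H65I

/-- For all `n ≥ 1` and all `k 0, ..., k n ≥ 0` with sum `K`, `M = 2K + 2n`:
there are finitely many admissible coloured partitions of every `N`, the denominator
`(q;q)_∞^(n-1) (q^2;q^2)_∞` is invertible in `ℤ[[q]]`, and the generating function times this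
denominator is `(q^M;q^M)_∞^n ∏_{1 ≤ i < j ≤ n} θ(q^(λ_i-λ_j+j-i);q^M) θ(q^(λ_i+λ_j+2n+1-i-j);q^M)`. -/
theorem result :
    ∀ n : ℕ, 1 ≤ n → ∀ k : ℕ → ℕ, ∀ K M : ℕ, K = ∑ t ∈ Finset.range (n + 1), k t →
      M = 2 * K + 2 * n →
      (∀ N : ℕ, (admissibles n k N).Finite) ∧
      IsUnit (poch 1 1 ^ (n - 1) * poch 2 2) ∧
      (PowerSeries.mk fun N : ℕ => ((admissibles n k N).ncard : ℤ)) *
          (poch 1 1 ^ (n - 1) * poch 2 2)
        = poch M M ^ n * ∏ i ∈ Finset.Icc 1 n, ∏ j ∈ Finset.Ioc i n,
          (theta (lam n k i - lam n k j + (j - i)) M *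
            theta (lam n k i + lam n k j + (2 * n + 1 - (i + j))) M) := by
  intro n hn k K M hK hM
  refine ⟨finite_admissibles n k, isUnit_den n, ?_⟩
  exact product_formula n hn k M (by rw [hM, hK])

end Pool.Agent.Results.MP_918571_co.FormalProduct
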